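import Pool.Agent.Helper89K9.MA.Stm

/-!
MA, [DES]: the explicit stream of vectors.
-/

set_option autoImplicit false

namespace Pool.Agent.Helper56K9.MA

open Finset
open Pool.Agent.Helper89K9.MA
open Pool.Agent.H699R2.OMV (Vec before)

theorem mem_before {n : ℕ} (vs : Fin n → Vec n) (q : Fin n) {u : Vec n}
    (hu : u ∈ before vs q) : ∃ q' : Fin n, q' < q ∧ u = vs q' := by
  unfold before at hu
  rw [List.mem_take_iff_getElem] at hu
  obtain ⟨i, hi, rfl⟩ := hu
  rw [List.length_ofFn] at hi
  have h1 : i < q.val := by omega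
  have h2 : i < n := by omega
  refine ⟨⟨i, h2⟩, h1, ?_⟩
  simp

/-- An enumeration of a finite partial order in which larger elements come first. -/
theorem exists_enum {I : Type} [Fintype I] [PartialOrder I] {N : ℕ} (hN : Fintype.card I = N) :
    ∃ e : Fin N ≃ I, ∀ q q' : Fin N, q' < q → ¬ e q' ≤ e q := by
  classical
  letI : Fintype (LinearExtension I) := inferInstanceAs (Fintype I)
  have hc : Fintype.card (LinearExtension I) = N := hN
  let e0 : Fin N ≃o LinearExtension I := Fintype.orderIsoFinOfCardEq (LinearExtension I) hc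
  refine ⟨(Fin.revPerm.trans e0.toEquiv : Fin N ≃ LinearExtension I), ?_⟩
  intro q q' hq hle
  have h1 : (toLinearExtension (Fin.revPerm.trans e0.toEquiv q') : LinearExtension I) ≤
      toLinearExtension (Fin.revPerm.trans e0.toEquiv q) := toLinearExtension.monotone hle
  have h2 : e0 (Fin.rev q) < e0 (Fin.rev q') := e0.strictMono (Fin.rev_lt_rev.mpr hq)
  exact absurd h1 (not_le_of_gt h2)

section

variable {F : Type} [Field F] [Fintype F] [DecidableEq F] {t n K : ℕ}

/-- The class of a point: the direction of the line to `p`. -/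
noncomputable def dirO (D : (Fin t → F) ≃ Fin K) (p y : Fin (t + 1) → F) : Option (Fin K) :=
  if y 0 = p 0 then none else some (D fun k => (y k.succ - p k.succ) * (y 0 - p 0)⁻¹)

theorem dirO_eq (D : (Fin t → F) ≃ Fin K) (p y : Fin (t + 1) → F) (k : Fin K) :
    dirO D p y = some k ↔ ∃ c : F, c ≠ 0 ∧ y = p + c • (Fin.cons 1 (D.symm k) : Fin (t + 1) → F) := by
  unfold dirO
  constructor
  · intro h
    split_ifs at h with h0
    rw [Option.some.injEq] at h
    refine ⟨y 0 - p 0, sub_ne_zero.mpr h0, ?_⟩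
    have hne : y 0 - p 0 ≠ 0 := sub_ne_zero.mpr h0
    rw [← h, Equiv.symm_apply_apply]
    funext i
    refine Fin.cases ?_ (fun l => ?_) i
    · simp
    · simp only [Pi.add_apply, Pi.smul_apply, Fin.cons_succ, smul_eq_mul]
      field_simp
      ring
  · rintro ⟨c, hc, rfl⟩
    have h0 : (p + c • (Fin.cons 1 (D.symm k) : Fin (t + 1) → F)) 0 = p 0 + c := by
      simp
    rw [if_neg (by rw [h0]; simpa using hc)]
    rw [Option.some.injEq]
    have : (fun l : Fin t => ((p + c • (Fin.cons 1 (D.symm k) : Fin (t + 1) → F)) l.succ -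
        p l.succ) * ((p + c • (Fin.cons 1 (D.symm k) : Fin (t + 1) → F)) 0 - p 0)⁻¹) =
        D.symm k := by
      funext l
      rw [h0]
      simp only [Pi.add_apply, Pi.smul_apply, Fin.cons_succ, smul_eq_mul]
      rw [add_sub_cancel_left, add_sub_cancel_left, mul_comm c, mul_assoc, mul_inv_cancel₀ hc,
        mul_one]
    rw [this, Equiv.apply_symm_apply]

theorem clsum_eq (ι : (Fin (t + 1) → F) ↪ Fin n) (D : (Fin t → F) ≃ Fin K)
    (p : Fin (t + 1) → F) (g : (Fin (t + 1) → F) → ZMod 2)
    (hg : ∀ x u : Fin (t + 1) → F, ∑ c : F, g (x + c • u) = 0) (k : Fin K) :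
    clsum (Function.extend ι (dirO D p) (fun _ => none)) (Function.extend ι g 0) k = g p := by
  set u : Fin (t + 1) → F := Fin.cons 1 (D.symm k) with hu
  have hinj : Function.Injective (fun c : F => ι (p + c • u)) := by
    intro c c' h
    have h1 := ι.injective h
    have h2 := congrFun h1 0
    simpa [hu] using h2
  have hset : (univ.filter fun j : Fin n => Function.extend ι (dirO D p) (fun _ => none) j =
      some k) = (univ.erase (0 : F)).image (fun c : F => ι (p + c • u)) := by
    ext j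
    rw [Finset.mem_filter, Finset.mem_image]
    constructor
    · rintro ⟨-, h⟩
      by_cases hj : ∃ y, ι y = j
      · obtain ⟨y, rfl⟩ := hj
        rw [ι.injective.extend_apply, dirO_eq] at h
        obtain ⟨c, hc, hy⟩ := h
        exact ⟨c, Finset.mem_erase.mpr ⟨hc, Finset.mem_univ _⟩, by rw [hy]⟩
      · rw [Function.extend_apply' _ _ _ hj] at h
        exact absurd h (by simp)
    · rintro ⟨c, hc, rfl⟩
      refine ⟨Finset.mem_univ _, ?_⟩
      rw [ι.injective.extend_apply, dirO_eq]
      exact ⟨c, (Finset.mem_erase.mp hc).1, rfl⟩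
  unfold clsum
  rw [hset, Finset.sum_image (fun c _ c' _ h => hinj h)]
  have h1 : ∀ c : F, (Function.extend ι g 0 : Fin n → ZMod 2) (ι (p + c • u)) = g (p + c • u) :=
    fun c => ι.injective.extend_apply g 0 _
  rw [Finset.sum_congr rfl fun c _ => h1 c]
  have h2 := Finset.add_sum_erase univ (fun c : F => g (p + c • u)) (Finset.mem_univ 0)
  rw [hg p u, zero_smul, add_zero] at h2
  have h3 : ∑ c ∈ univ.erase (0 : F), g (p + c • u) = - g p := eq_neg_of_add_eq_zero_right h2
  rw [h3]
  exact ZMod.neg_eq_self_mod_two _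

end

theorem des : S_PT → S_DES := by
  intro hPT a t n ha ht hn
  classical
  obtain ⟨t', rfl⟩ : ∃ t', t = t' + 1 := ⟨t - 1, by omega⟩
  have hcard : Nat.card (GaloisField 2 a) = 2 ^ a := GaloisField.card 2 a (by omega)
  have h2a : 2 ≤ 2 ^ a := by
    calc 2 = 2 ^ 1 := rfl
      _ ≤ 2 ^ a := Nat.pow_le_pow_right (by norm_num) ha
  have hfin : Finite (GaloisField 2 a) := Nat.finite_of_card_ne_zero (by rw [hcard]; positivity)
  letI := Fintype.ofFinite (GaloisField 2 a)
  have hcF : Fintype.card (GaloisField 2 a) = 2 ^ a := by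
    rw [← Nat.card_eq_fintype_card, hcard]
  obtain ⟨f, j, h1, h2, h3⟩ := hPT a (t' + 1) ha ht
  have hb1 : (2 ^ a - 2) / (t' + 1) ≤ 2 ^ a - 2 := Nat.div_le_self _ _
  revert f j
  generalize (2 ^ a - 2) / (t' + 1) = b at hb1 ⊢
  intro f j h1 h2 h3
  have hN : (b + 1) ^ (t' + 1) ≤ n :=
    (Nat.pow_le_pow_left (by omega) (t' + 1)).trans hn
  refine ⟨hN, ?_⟩
  obtain ⟨e, he⟩ := exists_enum (I := Fin (t' + 1) → Fin (b + 1)) (N := (b + 1) ^ (t' + 1))
    (by simp)
  obtain ⟨ι⟩ : Nonempty ((Fin (t' + 1) → GaloisField 2 a) ↪ Fin n) := by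
    apply Function.Embedding.nonempty_of_card_le
    rw [Fintype.card_fun, Fintype.card_fin, Fintype.card_fin, hcF]
    exact hn
  have D : (Fin t' → GaloisField 2 a) ≃ Fin ((2 ^ a) ^ (t' + 1 - 1)) :=
    Fintype.equivFinOfCardEq (by rw [Fintype.card_fun, Fintype.card_fin, hcF]; simp)
  refine ⟨fun q => if h : q.val < (b + 1) ^ (t' + 1) then
      (Function.extend ι (f (e ⟨q.val, h⟩)) 0 : Fin n → ZMod 2) else 0,
    fun q => if h : q.val < (b + 1) ^ (t' + 1) then
      Function.extend ι (dirO D (j (e ⟨q.val, h⟩))) (fun _ => none) else fun _ => none, ?_⟩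
  intro q hq
  have hcls : ∀ (i : Fin (t' + 1) → Fin (b + 1)) (p : Fin (t' + 1) → GaloisField 2 a)
      (k : Fin ((2 ^ a) ^ (t' + 1 - 1))),
      clsum (Function.extend ι (dirO D p) (fun _ => none)) (Function.extend ι (f i) 0) k =
        f i p := fun i p k => clsum_eq ι D p (f i) (fun x u => h1 i x u) k
  constructor
  · intro u hu k
    obtain ⟨q', hq', rfl⟩ := mem_before _ q hu
    have hq'' : q'.val < (b + 1) ^ (t' + 1) := lt_trans hq' hq
    simp only [dif_pos hq, dif_pos hq'']
    rw [hcls]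
    by_contra hne
    exact he ⟨q.val, hq⟩ ⟨q'.val, hq''⟩ hq' (h3 _ _ hne)
  · intro k
    simp only [dif_pos hq]
    rw [hcls]
    exact h2 _

end Pool.Agent.Helper56K9.MA
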