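import Pool.Agent.Helper89K9.MA.Stm

/-!
MA, [PT]: functions with zero sums on all lines.
-/

set_option autoImplicit false

namespace Pool.Agent.Helper56K9.MA

open Finset
open Pool.Agent.Helper89K9.MA

/-- Polynomials of small degree have sum zero. -/
theorem sum_eval {F : Type*} [Field F] [Fintype F] (P : Polynomial F) {d : ℕ}
    (hP : P.natDegree ≤ d) (hd : d < Fintype.card F - 1) : ∑ c : F, P.eval c = 0 := by
  have h1 : ∀ c : F, P.eval c = ∑ j ∈ range (d + 1), P.coeff j * c ^ j := fun c =>
    Polynomial.eval_eq_sum_range' (Nat.lt_succ_of_le hP) c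
  simp only [h1]
  rw [Finset.sum_comm]
  apply Finset.sum_eq_zero
  intro j hj
  rw [← Finset.mul_sum, FiniteField.sum_pow_lt_card_sub_one F j (by
    have := Finset.mem_range.mp hj
    omega), mul_zero]

/-- The Newton product. -/
noncomputable def gN {F : Type*} [Field F] {t b : ℕ} (c : Fin b → F) (i : Fin t → Fin b)
    (x : Fin t → F) : F :=
  ∏ k, ∏ l ∈ univ.filter (fun l => l < i k), (x k - c l) * (c (i k) - c l)⁻¹

theorem gN_self {F : Type*} [Field F] {t b : ℕ} {c : Fin b → F} (hc : Function.Injective c)
    (i : Fin t → Fin b) : gN c i (fun k => c (i k)) = 1 := by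
  unfold gN
  apply Finset.prod_eq_one
  intro k _
  apply Finset.prod_eq_one
  intro l hl
  rw [Finset.mem_filter] at hl
  apply mul_inv_cancel₀
  rw [sub_ne_zero]
  intro h
  have := hc h
  rw [this] at hl
  exact lt_irrefl _ hl.2

theorem gN_le {F : Type*} [Field F] {t b : ℕ} {c : Fin b → F}
    (i i' : Fin t → Fin b) (h : gN c i (fun k => c (i' k)) ≠ 0) : i ≤ i' := by
  intro k
  by_contra hlt
  rw [not_le] at hlt
  apply h
  unfold gN
  apply Finset.prod_eq_zero (Finset.mem_univ k)
  apply Finset.prod_eq_zero (i := i' k)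
  · rw [Finset.mem_filter]
    exact ⟨Finset.mem_univ _, hlt⟩
  · rw [sub_self, zero_mul]

theorem gN_line {F : Type*} [Field F] [Fintype F] {t b : ℕ} (c : Fin (b + 1) → F)
    (i : Fin t → Fin (b + 1)) (x u : Fin t → F) (hb : t * b < Fintype.card F - 1) :
    ∑ s : F, gN c i (x + s • u) = 0 := by
  let P : Polynomial F := ∏ k, ∏ l ∈ univ.filter (fun l => l < i k),
    ((Polynomial.C (u k) * Polynomial.X + Polynomial.C (x k - c l)) *
      Polynomial.C (c (i k) - c l)⁻¹)
  have h1 : ∀ s : F, P.eval s = gN c i (x + s • u) := by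
    intro s
    simp only [P, gN, Polynomial.eval_prod]
    apply Finset.prod_congr rfl
    intro k _
    apply Finset.prod_congr rfl
    intro l _
    simp only [Polynomial.eval_mul, Polynomial.eval_add, Polynomial.eval_C, Polynomial.eval_X,
      Pi.add_apply, Pi.smul_apply, smul_eq_mul]
    ring
  have h2 : P.natDegree ≤ t * b := by
    refine (Polynomial.natDegree_prod_le _ _).trans ?_
    have h3 : ∀ k ∈ (univ : Finset (Fin t)), (∏ l ∈ univ.filter (fun l => l < i k),
        ((Polynomial.C (u k) * Polynomial.X + Polynomial.C (x k - c l)) *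
          Polynomial.C (c (i k) - c l)⁻¹)).natDegree ≤ b := by
      intro k _
      refine (Polynomial.natDegree_prod_le _ _).trans ?_
      have h4 : ∀ l ∈ univ.filter (fun l => l < i k),
          ((Polynomial.C (u k) * Polynomial.X + Polynomial.C (x k - c l)) *
            Polynomial.C (c (i k) - c l)⁻¹).natDegree ≤ 1 := by
        intro l _
        refine Polynomial.natDegree_mul_le.trans ?_
        rw [Polynomial.natDegree_C, add_zero]
        exact Polynomial.natDegree_linear_le
      refine (Finset.sum_le_card_nsmul _ _ _ h4).trans ?_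
      have h5 : (univ.filter (fun l : Fin (b + 1) => l < i k)).card = (i k : ℕ) := by
        rw [show (univ.filter (fun l : Fin (b + 1) => l < i k)) = Finset.Iio (i k) from by
          ext l; simp]
        exact Fin.card_Iio _
      rw [h5, smul_eq_mul, mul_one]
      have := (i k).isLt
      omega
    refine (Finset.sum_le_card_nsmul _ _ _ h3).trans ?_
    rw [Finset.card_univ, Fintype.card_fin, smul_eq_mul]
  have h3 := sum_eval P h2 hb
  simp only [h1] at h3
  exact h3

theorem pt : S_PT := by
  intro a t ha ht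
  classical
  have hcard : Nat.card (GaloisField 2 a) = 2 ^ a := GaloisField.card 2 a (by omega)
  have h2a : 2 ≤ 2 ^ a := by
    calc 2 = 2 ^ 1 := rfl
      _ ≤ 2 ^ a := Nat.pow_le_pow_right (by norm_num) ha
  set b := (2 ^ a - 2) / t with hb
  have hbt : t * b ≤ 2 ^ a - 2 := Nat.mul_div_le _ _
  have hb1 : b ≤ 2 ^ a - 2 := Nat.div_le_self _ _
  haveI : Finite (GaloisField 2 a) := Nat.finite_of_card_ne_zero (by rw [hcard]; positivity)
  letI := Fintype.ofFinite (GaloisField 2 a)
  have hcF : Fintype.card (GaloisField 2 a) = 2 ^ a := by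
    rw [← Nat.card_eq_fintype_card, hcard]
  obtain ⟨c⟩ : Nonempty (Fin (b + 1) ↪ GaloisField 2 a) := by
    apply Function.Embedding.nonempty_of_card_le
    rw [Fintype.card_fin, hcF]
    omega
  obtain ⟨φ, hφ⟩ := LinearMap.exists_leftInverse_of_injective
    (Algebra.linearMap (ZMod 2) (GaloisField 2 a))
    (LinearMap.ker_eq_bot.mpr (algebraMap (ZMod 2) (GaloisField 2 a)).injective)
  have hφ1 : φ 1 = 1 := by
    have := LinearMap.congr_fun hφ 1
    simpa using this
  refine ⟨fun i x => φ (gN c i x), fun i k => c (i k), ?_, ?_, ?_⟩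
  · intro i x u inst
    have h1 : ∑ s : GaloisField 2 a, gN c i (x + s • u) = 0 := by
      apply gN_line c i x u
      have : @Fintype.card (GaloisField 2 a) inst = 2 ^ a := by
        rw [← Nat.card_eq_fintype_card, hcard]
      rw [this]
      omega
    rw [← map_sum, h1, map_zero]
  · intro i
    change φ (gN c i (fun k => c (i k))) = 1
    rw [gN_self c.injective, hφ1]
  · intro i i' h
    apply gN_le (c := c) i i'
    intro h0
    apply h
    change φ (gN c i (fun k => c (i' k))) = 0
    rw [h0, map_zero]

end Pool.Agent.Helper56K9.MA
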