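import Pool.Agent.Helper89K9.MA.Stm

/-!
MA, [PZ]: the inequality of Paley and Zygmund for a sum of signs.
-/

set_option autoImplicit false

namespace Pool.Agent.Helper56K9.MA

open Finset
open Pool.Agent.Helper89K9.MA

theorem mom0 {ι : Type} [DecidableEq ι] (T : Finset ι) :
    ∑ _S ∈ T.powerset, (1 : ℝ) = 2 ^ T.card := by
  rw [Finset.sum_const, Finset.card_powerset]
  simp

theorem mom2 {ι : Type} [DecidableEq ι] (T : Finset ι) :
    ∑ S ∈ T.powerset, (2 * (S.card : ℝ) - T.card) ^ 2 = (T.card : ℝ) * 2 ^ T.card := by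
  induction T using Finset.induction_on with
  | empty => simp
  | insert a T ha ih =>
    rw [Finset.sum_powerset_insert ha, Finset.card_insert_of_notMem ha]
    have h1 : ∀ S ∈ T.powerset, (2 * ((insert a S).card : ℝ) - ((T.card + 1 : ℕ) : ℝ)) ^ 2 =
        (2 * (S.card : ℝ) - T.card + 1) ^ 2 := by
      intro S hS
      have : a ∉ S := fun h => ha (Finset.mem_powerset.mp hS h)
      rw [Finset.card_insert_of_notMem this]
      push_cast
      ring
    rw [Finset.sum_congr rfl h1, ← Finset.sum_add_distrib]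
    have h2 : ∀ S ∈ T.powerset, (2 * (S.card : ℝ) - ((T.card + 1 : ℕ) : ℝ)) ^ 2 +
        (2 * (S.card : ℝ) - T.card + 1) ^ 2 = 2 * (2 * (S.card : ℝ) - T.card) ^ 2 + 2 * 1 := by
      intro S _
      push_cast
      ring
    rw [Finset.sum_congr rfl h2, Finset.sum_add_distrib, ← Finset.mul_sum, ← Finset.mul_sum, ih,
      mom0]
    push_cast
    ring

theorem mom4 {ι : Type} [DecidableEq ι] (T : Finset ι) :
    ∑ S ∈ T.powerset, (2 * (S.card : ℝ) - T.card) ^ 4 =
      (3 * (T.card : ℝ) ^ 2 - 2 * T.card) * 2 ^ T.card := by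
  induction T using Finset.induction_on with
  | empty => simp
  | insert a T ha ih =>
    rw [Finset.sum_powerset_insert ha, Finset.card_insert_of_notMem ha]
    have h1 : ∀ S ∈ T.powerset, (2 * ((insert a S).card : ℝ) - ((T.card + 1 : ℕ) : ℝ)) ^ 4 =
        (2 * (S.card : ℝ) - T.card + 1) ^ 4 := by
      intro S hS
      have : a ∉ S := fun h => ha (Finset.mem_powerset.mp hS h)
      rw [Finset.card_insert_of_notMem this]
      push_cast
      ring
    rw [Finset.sum_congr rfl h1, ← Finset.sum_add_distrib]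
    have h2 : ∀ S ∈ T.powerset, (2 * (S.card : ℝ) - ((T.card + 1 : ℕ) : ℝ)) ^ 4 +
        (2 * (S.card : ℝ) - T.card + 1) ^ 4 = 2 * (2 * (S.card : ℝ) - T.card) ^ 4 +
          (12 * (2 * (S.card : ℝ) - T.card) ^ 2 + 2 * 1) := by
      intro S _
      push_cast
      ring
    rw [Finset.sum_congr rfl h2, Finset.sum_add_distrib, Finset.sum_add_distrib,
      ← Finset.mul_sum, ← Finset.mul_sum, ← Finset.mul_sum, ih, mom0, mom2]
    push_cast
    ring

theorem pz : S_PZ := by
  intro m hm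
  have hm0 : (0 : ℝ) < m := by exact_mod_cast hm
  set y : Finset (Fin m) → ℝ := fun S => 2 * (S.card : ℝ) - m with hy
  have e2 : ∑ S : Finset (Fin m), (y S) ^ 2 = m * 2 ^ m := by
    have := mom2 (univ : Finset (Fin m))
    rwa [Finset.powerset_univ, Finset.card_univ, Fintype.card_fin] at this
  have e4 : ∑ S : Finset (Fin m), (y S) ^ 4 = (3 * (m : ℝ) ^ 2 - 2 * m) * 2 ^ m := by
    have := mom4 (univ : Finset (Fin m))
    rwa [Finset.powerset_univ, Finset.card_univ, Fintype.card_fin] at this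
  set G : Finset (Finset (Fin m)) := univ.filter fun S => (m : ℝ) ≤ 4 * (y S) ^ 2 with hG
  set G1 : Finset (Finset (Fin m)) := univ.filter fun S : Finset (Fin m) =>
    m ≤ 2 * S.card ∧ m ≤ 4 * (2 * S.card - m) ^ 2 with hG1
  have s1 : (3 / 4 : ℝ) * (m * 2 ^ m) ≤ ∑ S ∈ G, (y S) ^ 2 := by
    have h1 := Finset.sum_filter_add_sum_filter_not (univ : Finset (Finset (Fin m)))
      (fun S => (m : ℝ) ≤ 4 * (y S) ^ 2) (fun S => (y S) ^ 2)
    rw [e2] at h1
    have h2 : ∑ S ∈ univ.filter (fun S => ¬ (m : ℝ) ≤ 4 * (y S) ^ 2), (y S) ^ 2 ≤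
        2 ^ m * ((m : ℝ) / 4) := by
      have h3 : ∀ S ∈ univ.filter (fun S => ¬ (m : ℝ) ≤ 4 * (y S) ^ 2), (y S) ^ 2 ≤ (m : ℝ) / 4 := by
        intro S hS
        have := (Finset.mem_filter.mp hS).2
        linarith
      refine (Finset.sum_le_card_nsmul _ _ _ h3).trans ?_
      rw [nsmul_eq_mul]
      apply mul_le_mul_of_nonneg_right _ (by positivity)
      have h4 := Finset.card_filter_le (univ : Finset (Finset (Fin m)))
        (fun S => ¬ (m : ℝ) ≤ 4 * (y S) ^ 2)
      rw [Finset.card_univ, Fintype.card_finset, Fintype.card_fin] at h4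
      exact_mod_cast h4
    linarith
  have s2 : (∑ S ∈ G, (y S) ^ 2) ^ 2 ≤ (G.card : ℝ) * ∑ S ∈ G, (y S) ^ 4 := by
    have h1 := sq_sum_le_card_mul_sum_sq (s := G) (f := fun S => (y S) ^ 2)
    have h2 : ∀ S ∈ G, ((y S) ^ 2) ^ 2 = (y S) ^ 4 := fun S _ => by ring
    rwa [Finset.sum_congr rfl h2] at h1
  have s3 : ∑ S ∈ G, (y S) ^ 4 ≤ 3 * (m : ℝ) ^ 2 * 2 ^ m := by
    have h1 : ∑ S ∈ G, (y S) ^ 4 ≤ ∑ S : Finset (Fin m), (y S) ^ 4 :=
      Finset.sum_le_sum_of_subset_of_nonneg (Finset.filter_subset _ _)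
        (fun S _ _ => by positivity)
    rw [e4] at h1
    have h2 : (0 : ℝ) < 2 ^ m := by positivity
    nlinarith
  have s4 : (3 : ℝ) * 2 ^ m ≤ 16 * G.card := by
    have h2 : (0 : ℝ) < 2 ^ m := by positivity
    have h3 : ((3 / 4 : ℝ) * (m * 2 ^ m)) ^ 2 ≤ (G.card : ℝ) * (3 * (m : ℝ) ^ 2 * 2 ^ m) := by
      refine (pow_le_pow_left₀ (by positivity) s1 2).trans (s2.trans ?_)
      exact mul_le_mul_of_nonneg_left s3 (Nat.cast_nonneg _)
    have h4 : (3 * (m : ℝ) ^ 2 * 2 ^ m) * (3 * 2 ^ m) ≤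
        (3 * (m : ℝ) ^ 2 * 2 ^ m) * (16 * G.card) := by nlinarith
    exact le_of_mul_le_mul_left h4 (by positivity)
  have hcompl : ∀ S : Finset (Fin m), (Sᶜ).card = m - S.card := by
    intro S
    rw [Finset.card_compl, Fintype.card_fin]
  have hle : ∀ S : Finset (Fin m), S.card ≤ m := by
    intro S
    have := Finset.card_le_univ S
    rwa [Fintype.card_fin] at this
  have s5 : G.card ≤ 2 * G1.card := by
    have h1 : G ⊆ G1 ∪ G1.image (fun S => Sᶜ) := by
      intro S hS
      have hS2 := (Finset.mem_filter.mp hS).2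
      rw [Finset.mem_union]
      rcases Nat.le_total m (2 * S.card) with h | h
      · left
        rw [hG1, Finset.mem_filter]
        refine ⟨Finset.mem_univ _, h, ?_⟩
        have e : ((2 * S.card - m : ℕ) : ℝ) = y S := by
          rw [Nat.cast_sub h]; push_cast; rfl
        have : (m : ℝ) ≤ ((4 * (2 * S.card - m) ^ 2 : ℕ) : ℝ) := by
          push_cast [e]
          exact hS2
        exact_mod_cast this
      · right
        rw [Finset.mem_image]
        refine ⟨Sᶜ, ?_, compl_compl S⟩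
        rw [hG1, Finset.mem_filter, hcompl]
        have hS3 := hle S
        have h' : m ≤ 2 * (m - S.card) := by omega
        refine ⟨Finset.mem_univ _, h', ?_⟩
        have e : ((2 * (m - S.card) - m : ℕ) : ℝ) = - y S := by
          rw [Nat.cast_sub h', Nat.cast_mul, Nat.cast_sub hS3, hy]
          push_cast
          ring
        have : (m : ℝ) ≤ ((4 * (2 * (m - S.card) - m) ^ 2 : ℕ) : ℝ) := by
          rw [Nat.cast_mul, Nat.cast_pow, e]
          push_cast
          rw [neg_sq]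
          exact hS2
        exact_mod_cast this
    refine (Finset.card_le_card h1).trans ((Finset.card_union_le _ _).trans ?_)
    have := Finset.card_image_le (s := G1) (f := fun S => Sᶜ)
    omega
  have s6 : ((3 * 2 ^ m : ℕ) : ℝ) ≤ ((32 * G1.card : ℕ) : ℝ) := by
    have h7 : (G.card : ℝ) ≤ 2 * G1.card := by exact_mod_cast s5
    push_cast
    linarith
  exact_mod_cast s6

end Pool.Agent.Helper56K9.MA
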